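import Mathlib

/-!
Definitions for the analytic half of project MP_28250c_DP (helper43 for helper98; no row).  Paper proof: /team-store/H98_DEPTH.md, sections 4 and 5
(and /team-store/H43_AC0P.md, sections 3 and 4).  `F = ZMod 2`.

`X` = finite set of points, `A` = the functions `X → F` of degree at most 1 (`1 ∈ A`), `A ^ e` (power of submodules of the algebra
`X → F`) = the functions of degree at most `e`; `L D` = increasing family of spaces of functions with `A * L D ≤ L (D+1)`.
`rk L D Y` = rank of `L D` restricted to `Y`, `Om L q Y = (1 - q) ∑_D q ^ D rk L D Y`.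
-/

set_option autoImplicit false
open scoped Classical

namespace H43DP

/-- the functions which vanish on `Y` -/
def van {X : Type} (Y : Set X) : Submodule (ZMod 2) (X → ZMod 2) where
  carrier := {g | ∀ x ∈ Y, g x = 0}
  add_mem' := by
    intro f g hf hg x hx
    rw [Pi.add_apply, hf x hx, hg x hx, add_zero]
  zero_mem' := fun x _ => rfl
  smul_mem' := by
    intro a f hf x hx
    rw [Pi.smul_apply, hf x hx, smul_zero]

/-- the rank of the restriction of `L D` to `Y` -/
noncomputable def rk {X : Type} (L : ℕ → Submodule (ZMod 2) (X → ZMod 2)) (D : ℕ) (Y : Set X) : ℕ :=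
  Module.finrank (ZMod 2) ↥(L D) - Module.finrank (ZMod 2) ↥(L D ⊓ van Y)

/-- the measure -/
noncomputable def Om {X : Type} (L : ℕ → Submodule (ZMod 2) (X → ZMod 2)) (q : ℝ) (Y : Set X) : ℝ :=
  (1 - q) * ∑' D : ℕ, q ^ D * (rk L D Y : ℝ)

/-- `L` is a filtered module over the filtered algebra generated by `A` -/
structure Flt {X : Type} (A : Submodule (ZMod 2) (X → ZMod 2)) (L : ℕ → Submodule (ZMod 2) (X → ZMod 2)) : Prop where
  one : (1 : X → ZMod 2) ∈ A
  mono : ∀ D, L D ≤ L (D + 1)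
  mul : ∀ D, ∀ a ∈ A, ∀ g ∈ L D, a * g ∈ L (D + 1)

/-- a function of degree at most `e` plus a sum of some of the gates `G j`, `j < S`, of level less than `k` -/
def Frm {X : Type} (A : Submodule (ZMod 2) (X → ZMod 2)) (e S : ℕ) (G : ℕ → X → ZMod 2) (lev : ℕ → ℕ) (k : ℕ)
    (h : X → ZMod 2) : Prop :=
  ∃ u ∈ A ^ e, ∃ T : Finset ℕ, (∀ j ∈ T, j < S ∧ lev j < k) ∧ h = u + ∑ j ∈ T, G j

/-- gates `G g`, `g < S`, with levels `1 ≤ lev g ≤ d`: gate `g` is a disjunction of functions as in `Frm`, with gates of smaller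
level -/
def Gts {X : Type} (A : Submodule (ZMod 2) (X → ZMod 2)) (e d S : ℕ) (G : ℕ → X → ZMod 2) (lev : ℕ → ℕ) : Prop :=
  ∀ g < S, 1 ≤ lev g ∧ lev g ≤ d ∧ ∃ H : Set (X → ZMod 2), (∀ h ∈ H, Frm A e S G lev (lev g) h) ∧
    ∀ x, G g x = if ∃ h ∈ H, h x = 1 then 1 else 0

/-- refutation with `S` gates; the lines `F i`, `i < len`, are functions as in `Frm` with gates of any level; the number of lines
is not bounded; every line is implied by a constraint (`Z j` = set of points violating constraint `j`) or by at most `f` earlier lines -/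
def Rfn {X ι : Type} (A : Submodule (ZMod 2) (X → ZMod 2)) (e d f S : ℕ) (Z : ι → Set X) : Prop :=
  ∃ (G : ℕ → X → ZMod 2) (lev : ℕ → ℕ) (len : ℕ) (F : ℕ → X → ZMod 2), Gts A e d S G lev ∧
    (∀ i < len, Frm A e S G lev (d + 1) (F i)) ∧ (∃ i < len, ∀ x, F i x = 0) ∧
    ∀ i < len, (∃ j, ∀ x, F i x = 0 → x ∈ Z j) ∨
      ∃ J : Finset ℕ, J.card ≤ f ∧ (∀ j ∈ J, j < i) ∧ ∀ x, F i x = 0 → ∃ j ∈ J, F j x = 0

end H43DP
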