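import Pool.Agent.H43.DP.Apx

/-!
ROW DPGtA (approximation of all gates; about 110 lines).  PROOF.
Show by induction on `k ≤ d`: there are `a`, `Er` such that the three conclusions hold for all `g < S` with `lev g ≤ k` (in the third one only the `Er g'` with `lev g' ≤ k` are
needed; it is simplest to put `Er g = ∅` for the gates not yet treated).  `k = 0`: no gates (`1 ≤ lev g`).  Step `k → k + 1`: keep `a`, `Er` on the gates of level `≤ k`.  For a gate `g` of
level `k + 1` with its set `H` (a finite type: the function space is finite, use `Fintype.ofFinite`): for `h ∈ H`, `h = u + ∑_(j∈T) G j` with `lev j < k + 1`, put `h' = u + ∑_(j∈T) a j`;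
`h' ∈ A ^ (e k)` because `u ∈ A ^ e0 ≤ A ^ (e k)` and `a j ∈ A ^ (e (lev j)) ≤ A ^ (e k)` (`pow_mono'`, `e` increasing up to `d`).  `approx_or` for the family `h'` (index type `H`) with
`e := e k`, `w := w (k+1)`.  Outside all the `Er`: `h' x = h x`, so the disjunctions agree.
-/

set_option autoImplicit false
open scoped Classical

namespace H43DP

variable {X : Type} [Fintype X] {A : Submodule (ZMod 2) (X → ZMod 2)} {L : ℕ → Submodule (ZMod 2) (X → ZMod 2)} {q : ℝ}

theorem gates_approx (hF : Flt A L) (h0 : 0 ≤ q) (h1 : q < 1) {e0 d S : ℕ} {G : ℕ → X → ZMod 2} {lev : ℕ → ℕ}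
    (hC : Gts A e0 d S G lev) (e w : ℕ → ℕ) (he0 : e0 ≤ e 0)
    (he : ∀ k < d, e k ≤ e (k + 1) ∧ e k * w (k + 1) ≤ e (k + 1)) {ε : ℝ} (hε0 : 0 ≤ ε)
    (hε : ∀ k < d, (1 - q ^ e k / 2) ^ w (k + 1) ≤ ε) :
    ∃ (a : ℕ → X → ZMod 2) (Er : ℕ → Set X), ∀ g < S, a g ∈ A ^ e (lev g) ∧ Om L q (Er g) ≤ ε * Om L q Set.univ ∧
      ∀ x, (∀ g' < S, x ∉ Er g') → a g x = G g x := by
  sorry

end H43DP
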