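import Pool.Agent.H43.DP.Defs

/-!
ROW DPRk (properties of `rk`; about 120 lines).  Template: Pool/Agent/H96/RX/Rk.lean, Pool/Agent/H96/RE/Split.lean, ThmC.lean and Half.lean
(same proofs with `RM V D` replaced by `L D`; nothing about `L` is used except finite dimension).
`rk_add`: `Submodule.finrank_mono inf_le_left`.  `rk_map`: rank-nullity for the restriction map `LinearMap.funLeft (ZMod 2) (ZMod 2) (Subtype.val : Y → X)`
(kernel = `van Y`).  `rk_mono`: `van Y' ≤ van Y`.  `rk_union`: `van (Y ∪ Y') = van Y ⊓ van Y'` and `Submodule.finrank_sup_add_finrank_inf_eq`.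
`rk_le_deg`: by `rk_map`.  `exists_van`: `finrank G + finrank (L D ⊓ van Y) = finrank (G ⊔ ..) + finrank (G ⊓ ..) ≤ finrank (L D) + finrank (G ⊓ van Y)`.
`rk_basis`: with `ev x : Module.Dual F (L D)`, `rk L D Y = finrank (span (ev '' Y))`; choose `B ⊆ Y` with `ev` independent on `B` and spanning the span of `ev '' Y`;
for every `C` the `ev x`, `x ∈ B`, `x ∈ C` are independent elements of `span (ev '' (Y ∩ C))`.
-/

set_option autoImplicit false
open scoped Classical

namespace H43DP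

variable {X : Type} [Fintype X] (L : ℕ → Submodule (ZMod 2) (X → ZMod 2))

theorem rk_add (D : ℕ) (Y : Set X) :
    rk L D Y + Module.finrank (ZMod 2) ↥(L D ⊓ van Y) = Module.finrank (ZMod 2) ↥(L D) := by
  sorry

theorem rk_map (D : ℕ) (Y : Set X) :
    rk L D Y = Module.finrank (ZMod 2) ↥((L D).map (LinearMap.funLeft (ZMod 2) (ZMod 2) (Subtype.val : Y → X))) := by
  sorry

theorem rk_mono (D : ℕ) {Y Y' : Set X} (h : Y ⊆ Y') : rk L D Y ≤ rk L D Y' := by
  sorry

theorem rk_empty (D : ℕ) : rk L D (∅ : Set X) = 0 := by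
  sorry

theorem rk_univ (D : ℕ) : rk L D (Set.univ : Set X) = Module.finrank (ZMod 2) ↥(L D) := by
  sorry

theorem rk_union (D : ℕ) (Y Y' : Set X) : rk L D (Y ∪ Y') ≤ rk L D Y + rk L D Y' := by
  sorry

theorem rk_iUnion (D N : ℕ) (Er : ℕ → Set X) : rk L D {x | ∃ i < N, x ∈ Er i} ≤ ∑ i ∈ Finset.range N, rk L D (Er i) := by
  sorry

theorem rk_le_card (D : ℕ) (Y : Set X) : rk L D Y ≤ Fintype.card X := by
  sorry

theorem rk_mono_deg {D D' : ℕ} (h : L D ≤ L D') (Y : Set X) : rk L D Y ≤ rk L D' Y := by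
  sorry

/-- a space of larger dimension contains a nonzero function vanishing on `Y` -/
theorem exists_van (D : ℕ) (Y : Set X) (G : Submodule (ZMod 2) (X → ZMod 2)) (hG : G ≤ L D)
    (h : rk L D Y < Module.finrank (ZMod 2) ↥G) : ∃ φ ∈ G, φ ≠ 0 ∧ ∀ x ∈ Y, φ x = 0 := by
  sorry

theorem rk_basis (D : ℕ) (Y : Set X) :
    ∃ B : Finset X, (∀ x ∈ B, x ∈ Y) ∧ B.card = rk L D Y ∧ ∀ C : Set X, (B.filter (fun x => x ∈ C)).card ≤ rk L D (Y ∩ C) := by
  sorry

end H43DP
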