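import Pool.Agent.H43.DP.GtA
import Pool.Agent.H43.DP.Ded

/-!
ROW DPThmC (Theorem C, abstract form; about 90 lines).  `L` = filtration for the rank measure (ordinary degree), `M` = filtration for `K` (heavy degree).
PROOF.  Take the refutation `G, lev, len, F` and `a`, `Er` from `gates_approx`.  `E0 = e d`.  For a line `F i = u + ∑_(j∈T) G j` put `b i = u + ∑_(j∈T) a j ∈ A ^ (e d)` (`lev j ≤ d`, `e` is increasing
up to `d`, `e0 ≤ e 0`; `pow_mono'`).  If `∑_(g<S) rk L D' (Er g) < finrank Gd`, then by `rk_iUnion` and `exists_van` there is `φ ∈ Gd`, `φ ≠ 0`, vanishing on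
`{x | ∃ g < S, x ∈ Er g}`, so `φ x ≠ 0 → a g x = G g x` for all `g < S` and `b i x = F i x`; `ded` gives `φ ∈ K`, contradiction with `hG2`.
Hence `finrank Gd ≤ ∑_(g<S) rk L D' (Er g)`; multiply by `q^D'` and use `pow_mul_rk_le` and the bound on `Om (Er g)`.
-/

set_option autoImplicit false
open scoped Classical

namespace H43DP

variable {X : Type} [Fintype X] {A : Submodule (ZMod 2) (X → ZMod 2)} {L M : ℕ → Submodule (ZMod 2) (X → ZMod 2)} {q : ℝ}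

theorem thmC {ι : Type} (hL : Flt A L) (hM : Flt A M) (h0 : 0 ≤ q) (h1 : q < 1) (K : Submodule (ZMod 2) (X → ZMod 2))
    {D0 D1 : ℕ} (hK2 : ∀ D < D0, ∀ a ∈ A, ∀ g ∈ K, g ∈ M D → a * g ∈ K) (Z : ι → Set X)
    (hK1 : ∀ g ∈ M D1, ∀ j, (fun x => if x ∈ Z j then g x else 0) ∈ K)
    {e0 d f S : ℕ} (hR : Rfn A e0 d f S Z) (e w : ℕ → ℕ) (he0 : e0 ≤ e 0)
    (he : ∀ k < d, e k ≤ e (k + 1) ∧ e k * w (k + 1) ≤ e (k + 1)) {ε : ℝ} (hε0 : 0 ≤ ε)
    (hε : ∀ k < d, (1 - q ^ e k / 2) ^ w (k + 1) ≤ ε) {D D' : ℕ} (hD1 : D + e d ≤ D1) (hD0 : D + (f + 1) * e d ≤ D0)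
    (Gd : Submodule (ZMod 2) (X → ZMod 2)) (hG1 : Gd ≤ L D') (hGM : Gd ≤ M D) (hG2 : Disjoint Gd K) :
    (Module.finrank (ZMod 2) ↥Gd : ℝ) * q ^ D' ≤ S * (ε * Om L q Set.univ) := by
  sorry

end H43DP
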